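import Pool.Agent.MWI.StmtsT

/-!
# Row FDI of squad MWI (MP_23468a_al)
-/

set_option autoImplicit false

namespace Pool.Agent.MWI.H41

open Pool.Agent.Helper14_MV Pool.Agent.Helper2_MV Pool.Agent.MWF Pool.Agent.MWI

/-- `z_i ↦ c i` -/
theorem zz_fm (f : ℕ → List ℕ) (c : List ℕ) (hf : ∀ e < c.length, f (3 * e + 2) = [c.getD e 0]) :
    (zz (List.range c.length)).flatMap f = c := by
  have h1 : (zz (List.range c.length)).flatMap f =
      (List.range c.length).flatMap (fun e => f (3 * e + 2)) := by
    unfold zz
    rw [List.flatMap_map]
  rw [h1]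
  have h2 : (List.range c.length).flatMap (fun e => f (3 * e + 2)) =
      (List.range c.length).flatMap (fun e => [c.getD e 0]) :=
    List.flatMap_congr (fun e he => hf e (List.mem_range.1 he))
  rw [h2]
  have h3 : ∀ l : List ℕ, l.flatMap (fun e => [c.getD e 0]) = l.map (fun e => c.getD e 0) := by
    intro l
    induction l with
    | nil => rfl
    | cons a l ih => rw [List.flatMap_cons, List.map_cons, ih]; rfl
  rw [h3]
  apply List.ext_getElem
  · simp
  · intro i h4 h5
    rw [List.getElem_map, List.getElem_range]
    exact List.getD_eq_getElem _ _ h5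

/-- FDI. -/
theorem fdi (h1 : InpStmt) (h2 : KqiStmt) : FdiStmt := by
  intro n β hT hd
  have key : ∀ k, Fdk β k := by
    intro k
    induction k with
    | zero =>
      intro p c q y hc _ _ _
      have e : c = [] := List.length_eq_zero_iff.1 (by omega)
      subst e
      exact RR.refl _
    | succ k ih =>
      intro p c q y hc hnd hy ha
      by_cases hk : c.length ≤ k
      · exact ih p c q y hk hnd hy ha
      have hl : c.length = k + 1 := by omega
      obtain ⟨P, Q, f, p0, q0, hp, hL, hf0, hfz⟩ := h1 p q c y hnd ha
      have hm : 1 ≤ c.length := by omega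
      have hkq := h2 n β hT hd P Q c.length hm hp (by
        have e : c.length - 1 = k := by omega
        rw [e]; exact ih)
      have h3 := ctx p0 q0 (RR.sub (β := β) f hkq)
      have hz := zz_fm f c hfz
      have e1 := hL (0 :: (zz (List.range c.length) ++ [0]))
      have e2 := hL (zz (List.range c.length) ++ [0, 0])
      have a1 : pl P ++ (0 :: (zz (List.range c.length) ++ [0]) ++ pr Q) =
          ww P Q (List.range c.length) := by
        simp [ww]
      have a2 : pl P ++ (zz (List.range c.length) ++ [0, 0] ++ pr Q) =
          pl P ++ (zz (List.range c.length) ++ 0 :: 0 :: pr Q) := by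
        simp
      rw [a1] at e1
      rw [a2] at e2
      have b1 : (0 :: (zz (List.range c.length) ++ [0])).flatMap f = y :: (c ++ [y]) := by
        rw [List.flatMap_cons, List.flatMap_append, hz, hf0]
        simp [hf0]
      have b2 : (zz (List.range c.length) ++ [0, 0]).flatMap f = c ++ [y, y] := by
        rw [List.flatMap_append, hz]
        simp [hf0]
      rw [b1] at e1
      rw [b2] at e2
      have c1 : p0 ++ List.flatMap f (ww P Q (List.range c.length)) ++ q0 =
          p ++ y :: (c ++ y :: q) := by
        rw [List.append_assoc, ← e1]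
        simp
      have c2 : p0 ++ List.flatMap f (pl P ++ (zz (List.range c.length) ++ 0 :: 0 :: pr Q)) ++ q0 =
          p ++ (c ++ y :: y :: q) := by
        rw [List.append_assoc, ← e2]
        simp
      rw [c1, c2] at h3
      exact h3
  intro p c q y hnd hy ha
  exact key c.length p c q y le_rfl hnd hy ha

end Pool.Agent.MWI.H41
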