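import Pool.Agent.MWI.StmtsT
import Pool.Agent.Helper61_MWD.Itr
import Pool.Agent.Helper65_MWZ.Glue

/-!
# The scheme F1L over h3, h4, h5: the theorems for helper61 (MP_23468a_al, squad MWI)
-/

set_option autoImplicit false

namespace Pool.Agent.Helper41_MWI

open Pool.Agent.Helper14_MV Pool.Agent.Helper2_MV Pool.Agent.MWI

variable {n : ℕ} {β : FIC}

theorem lm_of (h : Pool.Agent.MVD.Lx β) : Lm β := by
  have h1 := RR.sub (β := β) (fun c => if c = 3 then [1] else [c]) h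
  unfold Lm
  simpa [List.flatMap_cons] using h1

theorem fm_rep (f : ℕ → List ℕ) (hf : f 0 = [0]) (k : ℕ) :
    (List.replicate k 0).flatMap f = List.replicate k 0 := by
  induction k with
  | zero => rfl
  | succ k ih => rw [List.replicate_succ, List.flatMap_cons, hf, ih]; rfl

theorem rn_of (h : Pool.Agent.MWZ.R n (RR β)) : Rn n β := by
  have h1 := RR.sub (β := β) (fun c => if c = 2 then [1] else [c]) h
  have e : (Pool.Agent.MWZ.X 2 ++ 2 :: Pool.Agent.MWZ.X (n + 1)).flatMap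
      (fun c => if c = 2 then [1] else [c]) = [0, 0, 1] ++ List.replicate (n + 1) 0 := by
    rw [List.flatMap_append, List.flatMap_cons, fm_rep _ (by simp), fm_rep _ (by simp)]
    rfl
  rw [e] at h1
  unfold Rn
  simpa [List.flatMap_cons] using h1

/-- the renaming of the letters -/
def gg (c : ℕ) : List ℕ := if c = 1 then [3] else if c = 2 then [1] else if c = 3 then [4] else [c]

theorem ln_of (h : Pool.Agent.MWZ.L n (RR β)) : Ln n β := by
  have h1 := RR.sub (β := β) gg h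
  have e : (Pool.Agent.MWZ.X (n + 1) ++ 2 :: (Pool.Agent.MWZ.X (n + 1) ++
      3 :: Pool.Agent.MWZ.X (n + 1))).flatMap gg =
      (List.replicate (n + 1) 0 ++ 1 :: (List.replicate (n + 1) 0 ++ 4 :: List.replicate (n + 1) 0)) := by
    rw [List.flatMap_append, List.flatMap_cons, List.flatMap_append, List.flatMap_cons,
      fm_rep _ (by simp [gg])]
    rfl
  rw [e] at h1
  exact h1

theorem jn_of (h : Pool.Agent.MWZ.J n (RR β)) : Jn n β := by
  have h1 := RR.sub (β := β) gg h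
  have e : (Pool.Agent.MWZ.X 1 ++ 2 :: (Pool.Agent.MWZ.X 1 ++
      3 :: Pool.Agent.MWZ.X (n + 1))).flatMap gg =
      ([0, 1, 0, 4] ++ List.replicate (n + 1) 0) := by
    rw [List.flatMap_append, List.flatMap_cons, List.flatMap_append, List.flatMap_cons,
      fm_rep _ (by simp [gg]), fm_rep _ (by simp [gg])]
    rfl
  rw [e] at h1
  exact h1

theorem kn_of (h : Pool.Agent.MWZ.K n (RR β)) : Kn n β := by
  have h1 := RR.sub (β := β) gg h
  have e : (Pool.Agent.MWZ.X 1 ++ 2 :: (Pool.Agent.MWZ.X (n + 1) ++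
      3 :: Pool.Agent.MWZ.X (n + 1))).flatMap gg =
      ([0, 1] ++ (List.replicate (n + 1) 0 ++ 4 :: List.replicate (n + 1) 0)) := by
    rw [List.flatMap_append, List.flatMap_cons, List.flatMap_append, List.flatMap_cons,
      fm_rep _ (by simp [gg]), fm_rep _ (by simp [gg])]
    rfl
  rw [e] at h1
  exact h1

theorem h3x_of (h1 : Pool.Agent.MWZ.H1 (RR β)) (h2 : Pool.Agent.MWZ.H2 (RR β))
    (h3 : Pool.Agent.MWZ.H3 (RR β)) : H3x β where
  a := RR.sub (β := β) gg h1
  b := RR.sub (β := β) gg h2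
  c := RR.sub (β := β) gg h3

theorem dis (h : Pool.Agent.MWZ.H65.Two n (RR β)) : Ln n β ∨ Kn n β ∨ Jn n β ∨ H3x β := by
  rcases h with ⟨_, h⟩ | ⟨h1, h2, h3, _⟩ | ⟨_, ⟨h, _⟩ | h⟩
  · exact Or.inl (ln_of h)
  · exact Or.inr (Or.inr (Or.inr (h3x_of h1 h2 h3)))
  · exact Or.inr (Or.inr (Or.inl (jn_of h)))
  · exact Or.inr (Or.inl (kn_of h))

theorem ty_of (hw : Pool.Agent.Helper61_MWD.LRW n β) (hk : Pool.Agent.Helper61_MWD.K1 β) :
    Ty n β where
  pos := hw.pos
  per := hw.per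
  iso := hw.iso
  md := hw.md
  k1 := hk
  rn := rn_of hw.r
  lm := lm_of hw.lx

/-- FDO. -/
theorem fdo (hf : FdiStmt) (hp : Pool.Agent.MWNP.PhfStmt) (n : ℕ) :
    Pool.Agent.Helper61_MWD.FdS8 n ∧ Pool.Agent.Helper61_MWD.FdH3 n := by
  constructor
  · intro β hw hb hs
    exact hf n β (ty_of hw (Pool.Agent.Helper61_MWD.k1_of_s8 hs.2.2.2.1 hs.2.2.2.2.2.1))
      (dis (Pool.Agent.MWZ.H65.two_of_phf hp hb hw.iso hw.md))
  · intro β hw hb hs
    exact hf n β (ty_of hw (Pool.Agent.Helper61_MWD.k1_of_h3 hb hs.2.2.2.1 hs.2.2.2.2))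
      (dis (Pool.Agent.MWZ.H65.two_of_phf hp hb hw.iso hw.md))

end Pool.Agent.Helper41_MWI
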