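import Pool.Agent.Helper27_MWI.SKE
import Pool.Agent.Helper75_MWI.DCN
import Pool.Agent.Helper67_MWI.PJS
import Pool.Agent.Helper16_MWI.MMF
import Pool.Agent.Helper45_MWI.CVF
import Pool.Agent.Helper42_MWI.VIN
import Pool.Agent.Helper10_MWI.THX
import Pool.Agent.Helper92_MWI.FC1
import Pool.Agent.Helper13_MWI.FCT
import Pool.Agent.Helper13_MWI.BAS
import Pool.Agent.Helper60_MWI.CLO
import Pool.Agent.Helper43_MWI.PAR
import Pool.Agent.Helper30_MWI.SEP
import Pool.Agent.Helper36_MWI.IM1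
import Pool.Agent.Helper51_MWI.IM2
import Pool.Agent.Helper10_MWI.IM3
import Pool.Agent.Helper50_MWI.IM4
import Pool.Agent.Helper88_MWI.IM5
import Pool.Agent.Helper46_MWI.FCX
import Pool.Agent.Helper81_MWI.OSP
import Pool.Agent.Helper22_MWI.OST
import Pool.Agent.Helper39_MWI.KEY
import Pool.Agent.Helper24_MWI.N2E
import Pool.Agent.Helper62_MWI.DCM
import Pool.Agent.Helper42_MWI.WDC
import Pool.Agent.Helper66_MWI.GAT
import Pool.Agent.Helper15_MWI.PSI
import Pool.Agent.Helper27_MWI.GMN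
import Pool.Agent.Helper88_MWI.OUR
import Pool.Agent.Helper60_MWI.PRM
import Pool.Agent.Helper77_MWI.KQA
import Pool.Agent.Helper11_MWD.FIN3
import Pool.Agent.Helper70_MWI.N2C
import Pool.Agent.Helper25_MWI.FST
import Pool.Agent.Helper64_MWI.WLF
import Pool.Agent.Helper43_MWI.WRT
import Pool.Agent.Helper50_MWI.EN1
import Pool.Agent.Helper82_MWI.OSJ
import Pool.Agent.Helper49_MWI.NO1
import Pool.Agent.Helper94_MWI.NO2
import Pool.Agent.Helper86_MWI.WJR
import Pool.Agent.Helper41_MWI.SWP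
import Pool.Agent.Helper4_MWI.EXF
import Pool.Agent.Helper76_MWI.DBL
import Pool.Agent.Helper16_MWI.WH3
import Pool.Agent.Helper69_MWI.KQI
import Pool.Agent.Helper10_MWI.INP
import Pool.Agent.Helper41_MWI.FDI
import Pool.Agent.Helper41_MWI.FDO

/-!
# The scheme F1L over h3, h4, h5 (MP_23468a_al): assembly of squad MWI

`fdS8`, `fdH3`: the hypotheses of `Pool.Agent.Helper61_MWD.it8_of`, `it3_of`, all periods.
-/

set_option autoImplicit false

namespace Pool.Agent.Helper41_MWI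

open Pool.Agent.MWI

theorem skeF : SkeStmt := Pool.Agent.MWI.H27.ske
theorem dcnF : DcnStmt := Pool.Agent.MWI.H75.dcn
theorem pjsF : PjsStmt := Pool.Agent.MWI.H67.pjs
theorem mmfF : MmfStmt := Pool.Agent.MWI.H16.mmf
theorem cvfF : CvfStmt := Pool.Agent.MWI.H45.cvf
theorem vinF : VinStmt := Pool.Agent.MWI.H42.vin
theorem thxF : ThxStmt := Pool.Agent.MWI.H10.thx
theorem fc1F : Fc1Stmt := Pool.Agent.MWI.H92.fc1 skeF dcnF pjsF cvfF thxF
theorem fctF : FctStmt := Pool.Agent.MWI.H13.fct fc1F pjsF cvfF mmfF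
theorem basF : BasStmt := Pool.Agent.MWI.H13.bas pjsF mmfF thxF cvfF
theorem cloF : CloStmt := Pool.Agent.MWI.H60.clo pjsF mmfF cvfF thxF
theorem parF : ParStmt := Pool.Agent.MWI.H43.par
theorem sepF : SepStmt := Pool.Agent.MWI.H30.sep parF cvfF
theorem im1F : Im1Stmt := Pool.Agent.MWI.H36.im1 sepF
theorem im2F : Im2Stmt := Pool.Agent.MWI.H51.im2 vinF fctF cvfF pjsF
theorem im3F : Im3Stmt := Pool.Agent.MWI.H10.im3 sepF mmfF cvfF pjsF
theorem im4F : Im4Stmt := Pool.Agent.MWI.H50.im4 mmfF pjsF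
theorem im5F : Im5Stmt := Pool.Agent.MWI.H88.im5 mmfF cvfF
theorem fcxF : FcxStmt := Pool.Agent.MWI.H46.fcx
theorem ospF : OspStmt := Pool.Agent.MWI.H81.osp
theorem ostF : OstStmt := Pool.Agent.MWI.H22.ost ospF pjsF
theorem keyF : KeyStmt := Pool.Agent.MWI.H39.key fctF mmfF pjsF fcxF ostF im1F im2F im3F im4F im5F cloF
theorem n2eF : N2eStmt := Pool.Agent.MWI.H24.n2e vinF cvfF basF keyF
theorem dcmF : DcmStmt := Pool.Agent.MWI.H62.dcm
theorem wdcF : WdcStmt := Pool.Agent.MWI.H42.wdc skeF dcmF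
theorem gatF : GatStmt := Pool.Agent.MWI.H66.gat
theorem psiF : PsiStmt := Pool.Agent.MWI.H15.psi
theorem gmnF : GmnStmt := Pool.Agent.MWI.H27G.gmn
theorem ourF : OurStmt := Pool.Agent.MWI.H88.our
theorem prmF : PrmStmt := Pool.Agent.MWI.H60.prm
theorem kqaF : KqaStmt := Pool.Agent.MWI.H77.kqa wdcF gatF gmnF psiF ourF prmF
theorem n2tF : N2tStmt := Pool.Agent.MWD.H11.n2tF
theorem n2cF : N2cStmt := Pool.Agent.MWI.H70.n2c n2tF
theorem fstF : FstStmt := Pool.Agent.MWI.H25.fst n2cF wdcF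
theorem wlfF : WlfStmt := Pool.Agent.MWI.H64.wlf
theorem wrtF : WrtStmt := Pool.Agent.MWI.H43.wrt
theorem en1F : En1Stmt := Pool.Agent.MWI.H50.en1
theorem osjF : OsjStmt := Pool.Agent.MWI.H82.osj
theorem no1F : No1Stmt := Pool.Agent.MWI.H49.no1
theorem no2F : No2Stmt := Pool.Agent.MWI.H94.no2
theorem wjrF : WjrStmt := Pool.Agent.MWI.H86.wjr en1F osjF no1F no2F n2eF wdcF
theorem swpF : SwpStmt := Pool.Agent.MWI.H41S.swp
theorem exfF : ExfStmt := Pool.Agent.MWI.H4.exf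
theorem dblF : DblStmt := Pool.Agent.MWI.H76.dbl swpF exfF
theorem wh3F : Wh3Stmt := Pool.Agent.MWI.H16.wh3 dblF
theorem kqiF : KqiStmt := Pool.Agent.MWI.H69.kqi fstF kqaF wlfF wrtF wjrF wh3F
theorem inpF : InpStmt := Pool.Agent.MWI.H10.inp
theorem fdiF : FdiStmt := Pool.Agent.MWI.H41.fdi inpF kqiF

/-- **The scheme F1L over h4, h5**, all periods -/
theorem fdS8 (hp : Pool.Agent.MWNP.PhfStmt) (n : ℕ) : Pool.Agent.Helper61_MWD.FdS8 n :=
  (fdo fdiF hp n).1

/-- **The scheme F1L over h3**, all periods -/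
theorem fdH3 (hp : Pool.Agent.MWNP.PhfStmt) (n : ℕ) : Pool.Agent.Helper61_MWD.FdH3 n :=
  (fdo fdiF hp n).2

end Pool.Agent.Helper41_MWI
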