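import Pool.Agent.MWI.StmtsT
import Pool.Agent.Helper6_MVD.TRC
import Pool.Agent.Helper27_MVD.CTX

/-!
# Row SWP of squad MWI (MP_23468a_al)
-/

set_option autoImplicit false

namespace Pool.Agent.MWI.H41S

open Pool.Agent.Helper14_MV Pool.Agent.Helper2_MV Pool.Agent.MWF Pool.Agent.MWI

/-- the renaming -/
def ff (a c : ℕ) : List ℕ :=
  if c / 3 = a then (if c % 3 = 2 then [0] else [2]) else (if c % 3 = 2 then [3] else [5])

theorem ff1 (a : ℕ) : ff a (3 * a + 2) = [0] := by
  have h1 : (3 * a + 2) / 3 = a := by omega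
  have h2 : (3 * a + 2) % 3 = 2 := by omega
  simp [ff, h1, h2]

theorem ff2 (a : ℕ) : ff a (3 * a + 1) = [2] := by
  have h1 : (3 * a + 1) / 3 = a := by omega
  have h2 : ¬ (3 * a + 1) % 3 = 2 := by omega
  simp [ff, h1, h2]

theorem ff3 {a b : ℕ} (h : a ≠ b) : ff a (3 * b + 2) = [3] := by
  have h1 : ¬ (3 * b + 2) / 3 = a := by omega
  have h2 : (3 * b + 2) % 3 = 2 := by omega
  simp [ff, h1, h2]

theorem ff4 {a b : ℕ} (h : a ≠ b) : ff a (3 * b + 1) = [5] := by
  have h1 : ¬ (3 * b + 1) / 3 = a := by omega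
  have h2 : ¬ (3 * b + 1) % 3 = 2 := by omega
  simp [ff, h1, h2]

/-- the filter -/
def gg (u v i : ℕ) : Bool := decide (i = u ∨ i = v)

theorem pl_f (g : ℕ → Bool) (P : List ℕ) : (pl P).filter (fun c => g (c / 3)) = pl (P.filter g) := by
  induction P with
  | nil => rfl
  | cons i P ih =>
    have e : pl (i :: P) = (3 * i + 2) :: (3 * i + 1) :: pl P := rfl
    have h1 : (3 * i + 2) / 3 = i := by omega
    have h2 : (3 * i + 1) / 3 = i := by omega
    rw [e]
    by_cases hg : g i = true
    · rw [List.filter_cons_of_pos (by simp only [h1]; exact hg),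
        List.filter_cons_of_pos (by simp only [h2]; exact hg), ih, List.filter_cons_of_pos hg]
      rfl
    · rw [List.filter_cons_of_neg (by simp only [h1]; exact hg),
        List.filter_cons_of_neg (by simp only [h2]; exact hg), ih, List.filter_cons_of_neg hg]

theorem pr_f (g : ℕ → Bool) (P : List ℕ) : (pr P).filter (fun c => g (c / 3)) = pr (P.filter g) := by
  induction P with
  | nil => rfl
  | cons i P ih =>
    have e : pr (i :: P) = (3 * i + 1) :: (3 * i + 2) :: pr P := rfl
    have h1 : (3 * i + 2) / 3 = i := by omega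
    have h2 : (3 * i + 1) / 3 = i := by omega
    rw [e]
    by_cases hg : g i = true
    · rw [List.filter_cons_of_pos (by simp only [h2]; exact hg),
        List.filter_cons_of_pos (by simp only [h1]; exact hg), ih, List.filter_cons_of_pos hg]
      rfl
    · rw [List.filter_cons_of_neg (by simp only [h2]; exact hg),
        List.filter_cons_of_neg (by simp only [h1]; exact hg), ih, List.filter_cons_of_neg hg]

theorem zz_f (g : ℕ → Bool) (P : List ℕ) : (zz P).filter (fun c => g (c / 3)) = zz (P.filter g) := by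
  induction P with
  | nil => rfl
  | cons i P ih =>
    have e : zz (i :: P) = (3 * i + 2) :: zz P := rfl
    have h1 : (3 * i + 2) / 3 = i := by omega
    rw [e]
    by_cases hg : g i = true
    · rw [List.filter_cons_of_pos (by simp only [h1]; exact hg), ih, List.filter_cons_of_pos hg]
      rfl
    · rw [List.filter_cons_of_neg (by simp only [h1]; exact hg), ih, List.filter_cons_of_neg hg]

theorem bfr_f {R : List ℕ} (hn : R.Nodup) {u v : ℕ} (h : MVD.Bfr R u v) :
    R.filter (gg u v) = [u, v] ∧ R.filter (gg v u) = [u, v] ∧ u ≠ v := by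
  obtain ⟨A, B, C, rfl⟩ := h
  rw [List.nodup_append] at hn
  obtain ⟨hA, h1, h2⟩ := hn
  rw [List.nodup_cons] at h1
  obtain ⟨h3, h4⟩ := h1
  rw [List.nodup_append] at h4
  obtain ⟨hB, h5, h6⟩ := h4
  rw [List.nodup_cons] at h5
  have eA : ∀ i ∈ A, i ≠ u ∧ i ≠ v := fun i hi =>
    ⟨h2 i hi u (by simp), h2 i hi v (by simp)⟩
  have eB : ∀ i ∈ B, i ≠ u ∧ i ≠ v := fun i hi =>
    ⟨fun h => h3 (by rw [← h]; simp [hi]), h6 i hi v (by simp)⟩
  have eC : ∀ i ∈ C, i ≠ u ∧ i ≠ v := fun i hi =>
    ⟨fun h => h3 (by rw [← h]; simp [hi]), fun h => h5.1 (by rw [← h]; exact hi)⟩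
  have huv : u ≠ v := fun h => h3 (by rw [h]; simp)
  have key : ∀ g : ℕ → Bool, (∀ i, g i = true ↔ (i = u ∨ i = v)) →
      (A ++ u :: (B ++ v :: C)).filter g = [u, v] := by
    intro g hg
    have f0 : ∀ L : List ℕ, (∀ i ∈ L, i ≠ u ∧ i ≠ v) → L.filter g = [] := by
      intro L hL
      rw [List.filter_eq_nil_iff]
      intro i hi h
      rcases (hg i).1 h with h | h
      · exact (hL i hi).1 h
      · exact (hL i hi).2 h
    rw [List.filter_append, List.filter_cons_of_pos ((hg u).2 (Or.inl rfl)), List.filter_append,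
      List.filter_cons_of_pos ((hg v).2 (Or.inr rfl)), f0 A eA, f0 B eB, f0 C eC]
    rfl
  refine ⟨key _ ?_, key _ ?_, huv⟩
  · intro i; simp [gg]
  · intro i; simp [gg, or_comm]

theorem perm2 {l : List ℕ} {u v : ℕ} (h : l.Perm [u, v]) : l = [u, v] ∨ l = [v, u] := by
  have hl := h.length_eq
  match l, hl, h with
  | [a, b], _, h =>
    have ha : a ∈ [u, v] := h.subset (by simp)
    simp only [List.mem_cons, List.not_mem_nil, or_false] at ha
    rcases ha with rfl | rfl
    · left
      have h1 := (List.perm_cons a).1 h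
      have h2 := List.perm_singleton.1 h1
      rw [h2]
    · right
      have h1 : [a, b].Perm [a, u] := h.trans (List.Perm.swap _ _ _)
      have h2 := List.perm_singleton.1 ((List.perm_cons a).1 h1)
      rw [h2]

/-- the six cases -/
theorem six {P Q : List ℕ} {a b : ℕ} (h : P ++ Q = [a, b]) :
    (P = [a, b] ∧ Q = []) ∨ (P = [a] ∧ Q = [b]) ∨ (P = [] ∧ Q = [a, b]) := by
  match P, h with
  | [], h => exact Or.inr (Or.inr ⟨rfl, h⟩)
  | [c], h =>
    have h1 : c = a ∧ Q = [b] := by simpa using h
    exact Or.inr (Or.inl ⟨by rw [h1.1], h1.2⟩)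
  | [c, d], h =>
    have h1 : c = a ∧ d = b ∧ Q = [] := by simpa using h
    exact Or.inl ⟨by rw [h1.1, h1.2.1], h1.2.2⟩
  | c :: d :: e :: P, h =>
    exact absurd (congrArg List.length h) (by simp)

/-- SWP. -/
theorem swp : SwpStmt := by
  intro β _ P Q h X Y m hpq hh hr hX hY
  let I : ℕ → ℕ → Prop := fun u v => ∀ p q : List ℕ, (u ∈ P → 3 * u + 2 ∈ p) →
    (u ∈ Q → 3 * u + 2 ∈ q) → (v ∈ P → 3 * v + 2 ∈ p) → (v ∈ Q → 3 * v + 2 ∈ q) →
    RR β (p ++ (3 * u + 2) :: (3 * v + 2) :: q) (p ++ (3 * v + 2) :: (3 * u + 2) :: q)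
  have hnd : (List.range m).Nodup := List.nodup_range
  have hnh : h.Nodup := hh.symm.nodup_iff.1 hnd
  have key := Pool.Agent.MVD.H6.trc I (fun A B => RR β (X ++ (zz A ++ Y)) (X ++ (zz B ++ Y)))
    (List.range m) h (fun _ => RR.refl _) (fun _ _ _ h1 h2 => β.trans h1 h2)
    (by
      intro A C u v hp hI
      have hu : u ∈ P ++ Q := hpq.symm.subset (hp.subset (by simp))
      have hv : v ∈ P ++ Q := hpq.symm.subset (hp.subset (by simp))
      have h1 := hI (X ++ zz A) (zz C ++ Y)
        (fun h => List.mem_append_left _ (hX u h)) (fun h => List.mem_append_right _ (hY u h))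
        (fun h => List.mem_append_left _ (hX v h)) (fun h => List.mem_append_right _ (hY v h))
      simpa [zz] using h1)
    hnd hh
    (by
      intro u v b1 b2
      obtain ⟨e1, -, huv⟩ := bfr_f hnd b1
      obtain ⟨-, e2, -⟩ := bfr_f hnh b2
      have hf := RR.filter (β := β) (fun c => gg u v (c / 3)) hr
      rw [List.filter_append, List.filter_append, List.filter_append, List.filter_append,
        pl_f, pr_f, zz_f, zz_f, e1, e2] at hf
      have hperm : (P.filter (gg u v) ++ Q.filter (gg u v)).Perm [u, v] := by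
        rw [← List.filter_append, ← e1]
        exact hpq.filter _
      have mP : ∀ i, i ∈ P.filter (gg u v) → i ∈ P := fun i hi => (List.mem_filter.1 hi).1
      have mQ : ∀ i, i ∈ Q.filter (gg u v) → i ∈ Q := fun i hi => (List.mem_filter.1 hi).1
      obtain ⟨c1, c2, c3⟩ := Pool.Agent.MVD.H27.ctx β
      intro p q pu qu pv qv
      rcases perm2 hperm with hc | hc
      · rcases six hc with ⟨p1, q1⟩ | ⟨p1, q1⟩ | ⟨p1, q1⟩
        · rw [p1, q1] at hf
          have hs := RR.sub (β := β) (ff u) hf
          have hS : MVD.S3 β := by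
            unfold MVD.S3
            simpa [pl, pr, zz, ff1, ff2, ff3 huv, ff4 huv] using hs
          exact c3 hS p q _ _ (pu (mP u (by rw [p1]; simp))) (pv (mP v (by rw [p1]; simp)))
        · rw [p1, q1] at hf
          have hs := RR.sub (β := β) (ff u) hf
          have hS : MVD.S2 β := by
            unfold MVD.S2
            simpa [pl, pr, zz, ff1, ff2, ff3 huv, ff4 huv] using hs
          exact c2 hS p q _ _ (pu (mP u (by rw [p1]; simp))) (qv (mQ v (by rw [q1]; simp)))
        · rw [p1, q1] at hf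
          have hs := RR.sub (β := β) (ff u) hf
          have hS : MVD.S1 β := by
            unfold MVD.S1
            simpa [pl, pr, zz, ff1, ff2, ff3 huv, ff4 huv] using hs
          exact c1 hS p q _ _ (qu (mQ u (by rw [q1]; simp))) (qv (mQ v (by rw [q1]; simp)))
      · rcases six hc with ⟨p1, q1⟩ | ⟨p1, q1⟩ | ⟨p1, q1⟩
        · rw [p1, q1] at hf
          have hs := RR.sub (β := β) (ff v) hf.symm
          have hS : MVD.S3 β := by
            unfold MVD.S3
            simpa [pl, pr, zz, ff1, ff2, ff3 huv.symm, ff4 huv.symm] using hs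
          exact (c3 hS p q _ _ (pv (mP v (by rw [p1]; simp))) (pu (mP u (by rw [p1]; simp)))).symm
        · rw [p1, q1] at hf
          have hs := RR.sub (β := β) (ff v) hf.symm
          have hS : MVD.S2 β := by
            unfold MVD.S2
            simpa [pl, pr, zz, ff1, ff2, ff3 huv.symm, ff4 huv.symm] using hs
          exact (c2 hS p q _ _ (pv (mP v (by rw [p1]; simp))) (qu (mQ u (by rw [q1]; simp)))).symm
        · rw [p1, q1] at hf
          have hs := RR.sub (β := β) (ff v) hf.symm
          have hS : MVD.S1 β := by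
            unfold MVD.S1
            simpa [pl, pr, zz, ff1, ff2, ff3 huv.symm, ff4 huv.symm] using hs
          exact (c1 hS p q _ _ (qv (mQ v (by rw [q1]; simp))) (qu (mQ u (by rw [q1]; simp)))).symm)
  exact key

end Pool.Agent.MWI.H41S
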